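import Mathlib
import Pool.Agent.W90.ZT.Zeta

/-!
# The `p`-adic Wan-Riemann hypothesis for `ℤ_p`-towers of curves, in a structural form

For every `ℤ_p`-tower of curves `X_n` over a finite field of characteristic `p` with finite ramification
locus, the `p ^ n`-th roots of unity generate an extension of bounded degree of the splitting field
`ℚ_{p, n}` of `P(X_n, s)` over `ℚ_p`. In particular `[ℚ_{p, n} : ℚ_p] → ∞`.
-/

open PowerSeries

namespace Pool.Agent.Results.MP_9f6d45_nt.CyclotomicBounded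

open Pool.Agent.H707R3

open scoped PowerSeries.WithPiTopology in
/-- The zeta function `Z(X, s) = ∏ (1 - s ^ deg x)⁻¹`, product over the closed points `x` of the curve
`X` with function field `K` over `k`. -/
noncomputable def zeta (p : ℕ) [Fact p.Prime] (k K : Type) [Field k] [Field K] [Algebra k K] :
    PowerSeries ℂ_[p] :=
  ∏' x : Place k K, (1 - X ^ x.deg)⁻¹

/-- `A` is the multiset of reciprocal roots of `P(X, s) = Z(X, s) (1 - s) (1 - q s)`, `q = #k`:
`P(X, s) = ∏ (1 - α s)`, product over `α ∈ A`. -/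
def IsRecipRoots (p : ℕ) [Fact p.Prime] (k K : Type) [Field k] [Field K] [Algebra k K]
    (A : Multiset ℂ_[p]) : Prop :=
  zeta p k K * (1 - X) * (1 - C (Nat.card k : ℂ_[p]) * X) = (A.map fun α => 1 - C α * X).prod

/-- For every `ℤ_p`-tower there are `D > 0` and `N` such that for `n ≥ N` the zeta function of the
layer `X_n` (the intermediate field `K` with `[K : F] = p ^ n`) has reciprocal roots as above, and the
field `M` they generate over `ℚ_p` satisfies `[M(μ_{p ^ n}) : M] ≤ D` and `φ(p ^ n) ≤ D [M : ℚ_p]`. -/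
theorem result (p : ℕ) [Fact p.Prime] (k F E : Type) [Field k] [Finite k] [CharP k p]
    [Field F] [Algebra k F] [Field E] [Algebra F E] [Algebra k E] [IsScalarTower k F E]
    (h : IsZpTower k F E p) :
    ∃ D : ℕ, 0 < D ∧ ∃ N : ℕ, ∀ n, N ≤ n →
      ∀ K : IntermediateField F E, Module.finrank F K = p ^ n →
        (∃ A, IsRecipRoots p k K A) ∧
          ∀ A, IsRecipRoots p k K A → ∀ M : IntermediateField ℚ_[p] ℂ_[p],
            M = IntermediateField.adjoin ℚ_[p] {α : ℂ_[p] | α ∈ A} →
              FiniteDimensional ℚ_[p] M ∧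
              FiniteDimensional M (IntermediateField.adjoin M {w : ℂ_[p] | w ^ p ^ n = 1}) ∧
              Module.finrank M (IntermediateField.adjoin M {w : ℂ_[p] | w ^ p ^ n = 1}) ≤ D ∧
              Nat.totient (p ^ n) ≤ D * Module.finrank ℚ_[p] M := by
  obtain ⟨D, hD, N, hN⟩ := W90.ZT.layer_bdd h
  refine ⟨D, hD, max N 1, fun n hn K hK => ⟨H387R3.ZT.exists_roots h K n hK, ?_⟩⟩
  rintro A hA M rfl
  obtain ⟨h1, h2⟩ := hN n (by omega) K hK A hA
  have hint := W90.ZT.layer_integral h n K hK A hA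
  have hfd : FiniteDimensional ℚ_[p] (genField A) := W90.ZT.finiteDimensional_genField A hint
  refine ⟨hfd, h1, h2, ?_⟩
  obtain ⟨m, rfl⟩ : ∃ m, n = m + 1 := ⟨n - 1, by omega⟩
  obtain ⟨r, hr0, hrD, hdvd⟩ := W90.ZT.totient_dvd (genField A) h1 h2
  have h3 := Nat.le_of_dvd (Nat.mul_pos (Nat.pos_of_ne_zero (ramIdx_ne_zero A hint)) hr0) hdvd
  have h4 := Pool.Agent.H387R3.ZT.ramIdx_le_finrank A hint
  calc Nat.totient (p ^ (m + 1)) ≤ ramIdx (genField A) * r := h3
    _ ≤ Module.finrank ℚ_[p] (genField A) * D := Nat.mul_le_mul h4 hrD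
    _ = D * Module.finrank ℚ_[p] (genField A) := mul_comm _ _

end Pool.Agent.Results.MP_9f6d45_nt.CyclotomicBounded
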